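import Pool.Agent.Helper53.SM.Normal

/-!
# Free sets for set mappings on `λ⁺`: a positive answer for some singular limits of measurables

`Arrow κ η θ ι` is the relation `(κ, η, θ) → ι` (for set mappings all of whose values have fewer
than `κ` elements). `ColumnHomogeneous lam σ`: every colouring of `λ⁺ × λ` with `σ` colours depends
only on the second coordinate on a product of a set of size `λ⁺` with a set of size `λ`.
-/

set_option autoImplicit false

namespace Pool.Agent.Results.MP_38e082_lc.LimitsOfMeasurables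

open Cardinal Filter Pool.Agent.Helper53.SM

universe u

/-- 1. Column homogeneity of `λ⁺ × λ` for `σ` colours implies `(λ⁺, λ⁺, λ) → σ⁺`.

2. Let `λ` be a limit, along a filter `𝓕` on a set of fewer than `λ` indices, of measurable
cardinals below `λ` with measures `D i`, such that any `λ⁺` elements of the product of the `D i`
have a common lower bound modulo `𝓕`. Then `(λ⁺, λ⁺, λ) → σ` for all `σ < λ`.

3. The hypothesis of 2. holds if the measures are normal, `2 ^ κ i = (κ i)⁺`, and any `λ⁺` elements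
of the product of the `κ i`, and of the product of the `(κ i)⁺`, have a common upper bound
modulo `𝓕`. Then `λ` is singular, and `(λ⁺, λ⁺, λ) → (cf λ)⁺`; indeed `(λ⁺, λ⁺, λ) → σ` for all
`σ < λ`. -/
theorem result :
    (∀ lam σ : Cardinal.{u}, ℵ₀ ≤ lam → σ ≤ lam → ColumnHomogeneous lam σ →
      Arrow (Order.succ lam) (Order.succ lam) lam (Order.succ σ)) ∧
    (∀ (lam : Cardinal.{u}) (I : Type u) (𝓕 : Filter I) (A : I → Type u)
      (D : ∀ i, Ultrafilter (A i)), 𝓕.NeBot → #I < lam → (∀ i, #(A i) < lam) →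
      (∀ ν < lam, ∀ᶠ i in 𝓕, ν < #(A i)) → (∀ i, IsMeasure (D i)) →
      (∀ S : Type u, #S = Order.succ lam → ∀ F : S → ∀ i, Set (A i), (∀ x i, F x i ∈ D i) →
        ∃ B : ∀ i, Set (A i), (∀ i, B i ∈ D i) ∧ ∀ x, ∀ᶠ i in 𝓕, B i ⊆ F x i) →
      ∀ σ < lam, ColumnHomogeneous lam σ ∧
        Arrow (Order.succ lam) (Order.succ lam) lam σ) ∧
    (∀ (lam : Cardinal.{u}) (I : Type u) (𝓕 : Filter I) (κ : I → Cardinal.{u})
      (D : ∀ i, Ultrafilter (κ i).ord.ToType), 𝓕.NeBot → #I < lam → (∀ i, κ i < lam) →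
      (∀ ν < lam, ∀ᶠ i in 𝓕, ν < κ i) → (∀ i, IsNormal (D i)) →
      (∀ i, 2 ^ κ i = Order.succ (κ i)) → Bounds lam 𝓕 κ →
      Bounds lam 𝓕 (fun i => Order.succ (κ i)) →
      lam.ord.cof < lam ∧
      Arrow (Order.succ lam) (Order.succ lam) lam (Order.succ lam.ord.cof) ∧
      ∀ σ < lam, ColumnHomogeneous lam σ ∧
        Arrow (Order.succ lam) (Order.succ lam) lam σ) := by
  have h1 : ∀ lam σ : Cardinal.{u}, ℵ₀ ≤ lam → σ ≤ lam → ColumnHomogeneous lam σ →
      Arrow (Order.succ lam) (Order.succ lam) lam (Order.succ σ) :=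
    fun lam σ hl hσ h => arrow_of_columnHomogeneous hl hσ h
  have h2 : ∀ (lam : Cardinal.{u}) (I : Type u) (𝓕 : Filter I) (A : I → Type u)
      (D : ∀ i, Ultrafilter (A i)), 𝓕.NeBot → #I < lam → (∀ i, #(A i) < lam) →
      (∀ ν < lam, ∀ᶠ i in 𝓕, ν < #(A i)) → (∀ i, IsMeasure (D i)) →
      (∀ S : Type u, #S = Order.succ lam → ∀ F : S → ∀ i, Set (A i), (∀ x i, F x i ∈ D i) →
        ∃ B : ∀ i, Set (A i), (∀ i, B i ∈ D i) ∧ ∀ x, ∀ᶠ i in 𝓕, B i ⊆ F x i) →
      ∀ σ < lam, ColumnHomogeneous lam σ ∧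
        Arrow (Order.succ lam) (Order.succ lam) lam (Order.succ σ) := by
    intro lam I 𝓕 A D hne hI hA hlim hD hdir σ hσ
    have hc : ColumnHomogeneous lam σ := columnHomogeneous_of_measures 𝓕 A D hI hA hlim hD hdir hσ
    obtain ⟨i₀, -⟩ := (hlim σ hσ).exists
    have hl : ℵ₀ ≤ lam := (hD i₀).infinite.trans (hA i₀).le
    exact ⟨hc, h1 lam σ hl hσ.le hc⟩
  refine ⟨h1, ?_, ?_⟩
  · intro lam I 𝓕 A D hne hI hA hlim hD hdir σ hσ
    obtain ⟨h3, h4⟩ := h2 lam I 𝓕 A D hne hI hA hlim hD hdir σ hσ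
    exact ⟨h3, h4.mono (Order.le_succ σ)⟩
  · intro lam I 𝓕 κ D hne hI hκ hlim hD hp hb1 hb2
    have hcof := cof_lt_of_limit 𝓕 κ hI hκ hlim
    have h3 := h2 lam I 𝓕 (fun i => (κ i).ord.ToType) D hne hI
      (fun i => by rw [mk_K]; exact hκ i)
      (fun ν hν => by
        filter_upwards [hlim ν hν] with i hi
        rw [mk_K]
        exact hi)
      (fun i => (hD i).isMeasure) (directed_of_bounds 𝓕 κ D hD hp hb1 hb2)
    exact ⟨hcof, (h3 _ hcof).2, fun σ hσ => ⟨(h3 σ hσ).1, (h3 σ hσ).2.mono (Order.le_succ σ)⟩⟩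

end Pool.Agent.Results.MP_38e082_lc.LimitsOfMeasurables
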